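import Pool.Agent.T6.H54.FlipMain

/-!
# `IET^⋈_Λ` is not stably realizable

Definitions imported from `Pool.Agent.T6.H54.FlipDefs`: the circle `S = ℝ / ℤ`, the normal subgroup
`FinSupp X` of finitely supported permutations of `X`, the quotient `NearPerm X`, the homomorphism
`extend X Y` letting a near permutation of `X` act on `X ⊔ Y` trivially on `Y`, and the subgroup
`IET Λ` of `NearPerm S`.
-/

set_option autoImplicit false

open Set Filter Topology

namespace Pool.Agent.Results.MP_ad338c_an.NotStablyRealizable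

open Pool.Agent.T6.H54.Flip

universe u

/-- `Γ` is realizable: there is a group `Γ'` of permutations of the circle, each continuous outside
a finite subset, which the quotient map sends bijectively onto `Γ`. -/
def Realizable (Γ : Subgroup (NearPerm S)) : Prop :=
  ∃ Γ' : Subgroup (Equiv.Perm S), (∀ σ ∈ Γ', {x : S | ¬ ContinuousAt σ x}.Finite) ∧
    BijOn (QuotientGroup.mk' (FinSupp S)) Γ' Γ

/-- `Γ` is stably realizable: for some set `Y`, letting `Γ` act on `S ⊔ Y` trivially on `Y`, the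
homomorphism to the permutations of `S ⊔ Y` modulo the finitely supported ones lifts to a
homomorphism to the permutations of `S ⊔ Y`. -/
def StablyRealizable (Γ : Subgroup (NearPerm S)) : Prop :=
  ∃ (Y : Type u) (ρ : Γ →* Equiv.Perm (S ⊕ Y)),
    ∀ γ : Γ, QuotientGroup.mk' (FinSupp (S ⊕ Y)) (ρ γ) = extend S Y (γ : NearPerm S)

/-- `Λ` is infinite and has an infinite cyclic subgroup of finite index. -/
def VirtuallyInfiniteCyclic (Λ : AddSubgroup S) : Prop :=
  Infinite Λ ∧ ∃ C : AddSubgroup Λ, IsAddCyclic C ∧ Infinite C ∧ C.FiniteIndex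

lemma mk_eq_iff {X : Type*} (a b : Equiv.Perm X) :
    QuotientGroup.mk' (FinSupp X) a = QuotientGroup.mk' (FinSupp X) b ↔
      {z | a z ≠ b z}.Finite := by
  rw [QuotientGroup.mk'_apply, QuotientGroup.mk'_apply, QuotientGroup.eq]
  change {z | (a⁻¹ * b) z ≠ z}.Finite ↔ _
  have : {z | (a⁻¹ * b) z ≠ z} = {z | a z ≠ b z} := by
    ext z
    simp only [mem_ofPred_eq, Equiv.Perm.mul_apply, ne_eq]
    rw [Equiv.Perm.inv_eq_iff_eq]
    tauto
  rw [this]

lemma realizable_stably {Γ : Subgroup (NearPerm S)} (h : Realizable Γ) :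
    StablyRealizable.{u} Γ := by
  obtain ⟨Γ', -, hb⟩ := h
  let f : Γ' →* Γ := ((QuotientGroup.mk' (FinSupp S)).comp Γ'.subtype).codRestrict Γ
    (fun x => hb.mapsTo x.2)
  have hf : Function.Bijective f := by
    constructor
    · intro x y hxy
      apply Subtype.ext
      exact hb.injOn x.2 y.2 (congrArg Subtype.val hxy)
    · rintro ⟨γ, hγ⟩
      obtain ⟨x, hx, hx'⟩ := hb.surjOn hγ
      exact ⟨⟨x, hx⟩, Subtype.ext hx'⟩
  let e : Γ' ≃* Γ := MulEquiv.ofBijective f hf
  refine ⟨PEmpty, (((Equiv.Perm.sumCongrHom S PEmpty).comp (MonoidHom.inl _ _)).comp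
    Γ'.subtype).comp e.symm.toMonoidHom, fun γ => ?_⟩
  obtain ⟨x, rfl⟩ := e.surjective γ
  simp only [MonoidHom.comp_apply]
  have h1 : e.symm.toMonoidHom (e x) = x := by simp
  rw [h1]
  rfl

lemma not_stably {Λ : AddSubgroup S} {α : S} (hα : α ∈ Λ) (hinf : addOrderOf α = 0) :
    ¬ StablyRealizable.{u} (IET Λ) := by
  rintro ⟨Y, ρ, hρ⟩
  let p : IEThat Λ →* IET Λ :=
    ((QuotientGroup.mk' (FinSupp S)).comp (IEThat Λ).subtype).codRestrict (IET Λ)
      (fun x => Subgroup.mem_map_of_mem _ x.2)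
  have hp : ∀ g : IEThat Λ, ((p g : IET Λ) : NearPerm S) = QuotientGroup.mk' (FinSupp S) g.1 :=
    fun g => rfl
  refine core (Λ := Λ) (Y := Y) ⟨ρ.comp p, ?_, ?_⟩ hα hinf
  · intro g
    have h1 := hρ (p g)
    rw [hp] at h1
    have h2 : extend S Y (QuotientGroup.mk' (FinSupp S) g.1) =
        QuotientGroup.mk' (FinSupp (S ⊕ Y)) (Equiv.Perm.sumCongr g.1 1) := rfl
    rw [h2, mk_eq_iff] at h1
    exact h1
  · intro g h hgh
    have h1 : p g = p h := by
      apply Subtype.ext
      rw [hp, hp, mk_eq_iff]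
      exact hgh
    rw [MonoidHom.comp_apply, MonoidHom.comp_apply, h1]

/-- For every virtually infinite cyclic subgroup `Λ` of the circle, and more generally for every
subgroup `Λ` with an element of infinite order, the group `IET^⋈_Λ` of interval exchanges with
flips is neither stably realizable nor realizable. -/
theorem result (Λ : AddSubgroup S) :
    (VirtuallyInfiniteCyclic Λ → ¬ StablyRealizable.{u} (IET Λ) ∧ ¬ Realizable (IET Λ)) ∧
      ((∃ α ∈ Λ, addOrderOf α = 0) →
        ¬ StablyRealizable.{u} (IET Λ) ∧ ¬ Realizable (IET Λ)) := by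
  have main : (∃ α ∈ Λ, addOrderOf α = 0) →
      ¬ StablyRealizable.{u} (IET Λ) ∧ ¬ Realizable (IET Λ) := by
    rintro ⟨α, hα, hinf⟩
    exact ⟨not_stably hα hinf, fun h => not_stably.{u} hα hinf (realizable_stably h)⟩
  refine ⟨?_, main⟩
  rintro ⟨-, C, hC, hCinf, -⟩
  apply main
  obtain ⟨g, hg⟩ := hC.exists_generator
  refine ⟨((g : Λ) : S), (g : Λ).2, ?_⟩
  have h1 : addOrderOf g = 0 := Infinite.addOrderOf_eq_zero_of_forall_mem_zmultiples hg
  rw [← h1]
  rw [← AddSubgroup.addOrderOf_coe g, ← AddSubgroup.addOrderOf_coe (g : Λ)]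

end Pool.Agent.Results.MP_ad338c_an.NotStablyRealizable
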